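import Pool.Agent.Y142.ZS.Fin
import Pool.Agent.Y708.ZO.Tan
import Pool.Agent.Y497.ZO.LogPow
import Pool.Agent.Y405.ZO.Frob
import Pool.Agent.Y484.ZI.IntRes
import Pool.Agent.Y971.ZI.Irr
import Pool.Agent.Y726.ZI.Cheb
import Pool.Agent.Y681.ZI.Dens
import Pool.Agent.Y537.ZI.Multi
import Pool.Agent.Y710.ZS.Tans
import Pool.Agent.Y664.ZS.Opens
import Pool.Agent.Y929.ZS.Root
import Pool.Agent.Y779.ZS.Chars
import Pool.Agent.Y100.ZS.Tenss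
import Pool.Agent.Y674.ZS.SPL

/-!
# Project OI: the symplectic theorem, with the remaining tasks as hypotheses
-/

set_option autoImplicit false
set_option linter.style.haveILetI false

open Matrix Polynomial Filter Topology NumberField IsDedekindDomain
open Pool.Agent.Y142.ZO Pool.Agent.Y142.ZI Pool.Agent.Y142.ZS

namespace Pool.Agent.Q282.OI

/-- every set of primes of density zero misses a large prime -/
theorem exists_not_mem {A : Set ℕ} (hA : Pool.Agent.Y142.ZI.DensityZero A) (b : ℕ) :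
    ∃ ℓ : ℕ, b < ℓ ∧ ℓ.Prime ∧ ℓ ∉ A := by
  obtain ⟨ℓ, h1, h2, h3, -⟩ := Pool.Agent.Y726.ZI.pos ⊤ inferInstance isOpen_univ Set.univ
    ⟨1, trivial⟩ (fun _ _ _ => trivial) (fun _ _ _ _ => trivial) A hA b
  exact ⟨ℓ, h1, h2, h3⟩

section
variable {K : Type} [Field K] [NumberField K] {N : ℕ} {S : Set (HeightOneSpectrum (𝓞 K))}
  {P : HeightOneSpectrum (𝓞 K) → ℚ[X]} {q : HeightOneSpectrum (𝓞 K) → ℚ}

/-- the finite data -/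
def WitS (S : Set (HeightOneSpectrum (𝓞 K))) (P : HeightOneSpectrum (𝓞 K) → ℚ[X])
    (q : HeightOneSpectrum (𝓞 K) → ℚ) (v w : HeightOneSpectrum (𝓞 K)) (σ : GK ℚ) : Prop :=
  (v ∉ S ∧ (P v).Separable ∧
    (∀ (j : ℕ) (x y : QQ), 0 < j → aeval x (P v) = 0 → aeval y (P v) = 0 → x ^ j = y ^ j → x = y) ∧
    ∀ x y : QQ, aeval x (P v) = 0 → aeval y (P v) = 0 → ∃ k : ℕ, (σ ^ k) x = y) ∧
  w ∉ S ∧ (P w).Separable ∧
    (∀ x y z u : QQ, aeval x (P w) = 0 → aeval y (P w) = 0 → aeval z (P w) = 0 →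
      aeval u (P w) = 0 → x ≠ y → x * u = z * y →
      (z = x ∧ u = y) ∨ (z * y = (q w : QQ) ∧ u * x = (q w : QQ))) ∧
    ∀ x : QQ, aeval x (P w) = 0 → σ x = x

theorem symp_main (hBADIRR : S_BADIRR) (hSFORM : S_SFORM) (hTWIST : S_TWIST) (hTYPC : S_TYPC)
    (hTYPS : S_TYPS) (hTYPT : S_TYPT) (hTYPU : S_TYPU) (hTYPG : S_TYPG) (hTYPCU : S_TYPCU)
    (hGEN : S_GEN) (hUNR : S_UNR) (hN : 0 < N) (hS : S.Finite)
    (ρ : ∀ (ℓ : ℕ) [Fact ℓ.Prime], GK K →* Matrix (Fin N) (Fin N) ℚ_[ℓ])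
    (J : ∀ (ℓ : ℕ) [Fact ℓ.Prime], Matrix (Fin N) (Fin N) ℚ_[ℓ])
    (hsys : ∀ (ℓ : ℕ) [Fact ℓ.Prime], SpSys K N ℓ (ρ ℓ) (J ℓ) S P q) :
    List.TFAE [∃ ℓ : ℕ, ∃ _ : Fact ℓ.Prime, ℓ ≠ 2 ∧ OpenSp ℓ (ρ ℓ) (J ℓ),
      Pool.Agent.Y142.ZI.DensityZero {ℓ | ∃ _ : Fact ℓ.Prime, ¬ OpenSp ℓ (ρ ℓ) (J ℓ)},
      ∃ (v w : HeightOneSpectrum (𝓞 K)) (σ : GK ℚ), WitS S P q v w σ] := by
  have hTAN : S_TAN := Pool.Agent.Y708.ZO.t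
  have hEXP : S_EXP := Pool.Agent.Y497.ZO.exp
  have hFROB : S_FROB := Pool.Agent.Y405.ZO.t
  have hINT : S_INT := Pool.Agent.Y484.ZI.t1
  have hRES : S_RES := Pool.Agent.Y484.ZI.t2
  have hIRR : S_IRR := Pool.Agent.Y971.ZI.t
  have hPOS : S_POS := Pool.Agent.Y726.ZI.pos
  have hDENS2 : S_DENS2 := Pool.Agent.Y681.ZI.t Pool.Agent.Y726.ZI.t1
  have hMULTI : S_MULTI := Pool.Agent.Y537.ZI.t
  have hTANS : S_TANS := Pool.Agent.Y710.ZS.t1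
  have hCAYS : S_CAYS := Pool.Agent.Y710.ZS.t2
  have hOPENS : S_OPENS := Pool.Agent.Y664.ZS.t
  have hROOT : S_ROOT := Pool.Agent.Y929.ZS.t_root
  have hCHARS : S_CHARS := Pool.Agent.Y779.ZS.t
  have hSPL : S_SPL := Pool.Agent.Y674.ZS.t
  obtain ⟨m, rfl⟩ : ∃ m : ℕ, N = 2 * m + 2 := by
    obtain ⟨k, hk⟩ := even_of_sys ρ J hsys
    exact ⟨k - 1, by omega⟩
  tfae_have 1 → 3 := by
    rintro ⟨ℓ, hℓ, h2, ho⟩
    obtain ⟨v, w, hv, hw, σ, hσ1, hσ2⟩ := start hMULTI hFROB hCHARS hSFORM hTYPCU hTYPG hS ρ J hsys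
      ℓ h2 (hCAYS ℓ _ _ (ρ ℓ) (J ℓ) (hsys ℓ).2.1 (hsys ℓ).2.2.1 ho)
    exact ⟨v, w, σ, ⟨hv.1, hv.2.2.1, hv.2.2.2, hσ1⟩, hw.1, hw.2.2.1, hw.2.2.2.2, hσ2⟩
  tfae_have 3 → 2 := by
    rintro ⟨v, w, σ, ⟨hv1, hv2, hv3, hv4⟩, hw1, hw2, hw3, hw4⟩
    have hv : NiceP S P v := ⟨hv1, (monic_of_sys ρ J hsys hv1).1, hv2, hv3⟩
    have hw : GenP S P q w := ⟨hw1, (monic_of_sys ρ J hsys hw1).1, hw2,
      q_ne_zero hN ρ J hsys hw1, hw3⟩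
    have h := densityS hTAN hEXP hTANS hROOT hBADIRR hPOS hIRR hSPL hMULTI hFROB hCHARS hSFORM
      hTWIST hTYPC hTYPS hTYPT hTYPU hTYPG hGEN hRES hUNR hINT hDENS2 hS ρ J hsys hv hw
      ⟨σ, hv4, hw4⟩
    refine h.mono ?_
    rintro ℓ ⟨hp, hno⟩
    refine ⟨hp, fun hfull => hno ?_⟩
    exact hOPENS ℓ _ (GK K) (ρ ℓ) (hsys ℓ).1 (J ℓ) (hsys ℓ).2.1 (hsys ℓ).2.2.1 (hsys ℓ).2.2.2.1 hfull
  tfae_have 2 → 1 := by
    intro h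
    obtain ⟨ℓ, h2, hp, hℓ⟩ := exists_not_mem h 2
    haveI : Fact ℓ.Prime := ⟨hp⟩
    refine ⟨ℓ, inferInstance, by omega, ?_⟩
    by_contra hcon
    exact hℓ ⟨inferInstance, hcon⟩
  tfae_finish

end

end Pool.Agent.Q282.OI
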