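import Pool.Agent.Y142.ZD.Fin
import Pool.Agent.Y758.ZD.Abs
import Pool.Agent.Y614.ZD.Badd
import Pool.Agent.Y100.ZD.Sub
import Pool.Agent.Y331.ZD.Krq
import Pool.Agent.Y884.ZI.Open
import Pool.Agent.Q282.OI.FinS

/-!
# Project OI: the theorem for the orthogonal group in even dimension, with the remaining tasks as
hypotheses
-/

set_option autoImplicit false
set_option linter.style.haveILetI false

open Matrix Polynomial Filter Topology NumberField IsDedekindDomain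
open Pool.Agent.Y142.ZO Pool.Agent.Y142.ZI Pool.Agent.Y142.ZD
open Pool.Agent.Y142.ZS (NiceP)

namespace Pool.Agent.Q282.OI

section
variable {K : Type} [Field K] [NumberField K] {N : ℕ} {S : Set (HeightOneSpectrum (𝓞 K))}
  {P : HeightOneSpectrum (𝓞 K) → ℚ[X]}

/-- the finite data -/
def WitE (N : ℕ) (S : Set (HeightOneSpectrum (𝓞 K))) (P : HeightOneSpectrum (𝓞 K) → ℚ[X])
    (v : ℕ → HeightOneSpectrum (𝓞 K)) (w : HeightOneSpectrum (𝓞 K)) (σ : GK ℚ) : Prop :=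
  (∀ d : ℕ, 0 < d → d < N → v d ∉ S ∧ (P (v d)).Separable ∧
    (∀ (j : ℕ) (x y : QQ), 0 < j → aeval x (P (v d)) = 0 → aeval y (P (v d)) = 0 →
      x ^ j = y ^ j → x = y) ∧
    ∀ T : Set QQ, (∀ x ∈ T, aeval x (P (v d)) = 0) → (∀ x ∈ T, σ x ∈ T) → T.ncard ≠ d) ∧
  w ∉ S ∧ (P w).Separable ∧
    (∀ (j : ℕ) (x y : QQ), 0 < j → aeval x (P w) = 0 → aeval y (P w) = 0 → x ^ j = y ^ j → x = y) ∧
    (∀ x : QQ, aeval x (P w) = 0 → x * x ≠ 1) ∧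
    (∀ x y z u : QQ, aeval x (P w) = 0 → aeval y (P w) = 0 → aeval z (P w) = 0 →
      aeval u (P w) = 0 → x ≠ y → x * u = z * y → (z = x ∧ u = y) ∨ (z * y = 1 ∧ u * x = 1)) ∧
    ∃ x : QQ, aeval x (P w) = 0 ∧ σ x = x

theorem even_main (hROOTE : S_ROOTE) (hFDA : S_FDA) (hFDB : S_FDB) (hTYPD2 : S_TYPD2)
    (hTYPD3 : S_TYPD3) (hNR : S_NR) (hTAME : S_TAME) (hGEND : S_GEND) (hCLD : S_CLD)
    (hCHARE : S_CHARE) (hDISCE : S_DISCE) (hCAY : S_CAY) {n : ℕ} (hn : 4 ≤ n) (hN : N = 2 * n)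
    (hS : S.Finite)
    (ρ : ∀ (ℓ : ℕ) [Fact ℓ.Prime], GK K →* Matrix (Fin N) (Fin N) ℚ_[ℓ])
    (B : ∀ (ℓ : ℕ) [Fact ℓ.Prime], Matrix (Fin N) (Fin N) ℚ_[ℓ])
    (hsys : ∀ (ℓ : ℕ) [Fact ℓ.Prime], Orthogonal K N ℓ (ρ ℓ) (B ℓ) S P) :
    List.TFAE [∃ ℓ : ℕ, ∃ _ : Fact ℓ.Prime, ¬ ℓ ∣ 4 * ((n - 1) * (n - 2)) ∧
        Even (Padic.valuation (B ℓ).det) ∧ OpenImage ℓ (ρ ℓ) (B ℓ),
      Pool.Agent.Y142.ZI.DensityZero {ℓ | ∃ _ : Fact ℓ.Prime,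
        ¬ (Even (Padic.valuation (B ℓ).det) ∧ OpenImage ℓ (ρ ℓ) (B ℓ))},
      ∃ (v : ℕ → HeightOneSpectrum (𝓞 K)) (w : HeightOneSpectrum (𝓞 K)) (σ : GK ℚ),
        WitE N S P v w σ] := by
  have hTAN : S_TAN := Pool.Agent.Y708.ZO.t
  have hFROB : S_FROB := Pool.Agent.Y405.ZO.t
  have hINT : S_INT := Pool.Agent.Y484.ZI.t1
  have hPOS : S_POS := Pool.Agent.Y726.ZI.pos
  have hDENS2 : S_DENS2 := Pool.Agent.Y681.ZI.t Pool.Agent.Y726.ZI.t1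
  have hMULTI : S_MULTI := Pool.Agent.Y537.ZI.t
  have hOPEN : S_OPEN := Pool.Agent.Y884.ZI.t
  have hABS : S_ABS := Pool.Agent.Y758.ZD.t
  have hBADD : S_BADD := Pool.Agent.Y614.ZD.t
  have hSUB : S_SUB := Pool.Agent.Y100.ZD.t
  have hKRQ : S_KRQ := Pool.Agent.Y331.ZD.t
  tfae_have 1 → 3 := by
    rintro ⟨ℓ, hℓ, hL, hev, ho⟩
    obtain ⟨σ, v, w, h1, h2, h3, h4⟩ := startE hn hN hMULTI hFROB hCHARE hKRQ hFDA hFDB hTYPD3 hTAME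
      hS ρ B hsys ℓ hL (hCAY ℓ _ _ (ρ ℓ) (B ℓ) (hsys ℓ).2.1 (hsys ℓ).2.2.1 ho) hev
    refine ⟨v, w, σ, fun d hd hdN => ⟨(h1 d).1, (h1 d).2.2.1, (h1 d).2.2.2, h2 d hd hdN⟩,
      h3.1.1, h3.1.2.2.1, h3.1.2.2.2, h3.2.1, h3.2.2, h4⟩
  have start_of : (∃ (v : ℕ → HeightOneSpectrum (𝓞 K)) (w : HeightOneSpectrum (𝓞 K)) (σ : GK ℚ),
        WitE N S P v w σ) → StartData N S P := by
    rintro ⟨v, w, σ, hv, hw1, hw2, hw3, hw4, hw5, hw6⟩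
    refine ⟨σ, fun d => if 0 < d ∧ d < N then v d else v 1, w, ?_, ?_, ?_, hw6⟩
    · intro d
      beta_reduce
      by_cases hd : 0 < d ∧ d < N
      · rw [if_pos hd]
        obtain ⟨h1, h2, h3, -⟩ := hv d hd.1 hd.2
        exact ⟨h1, (Pool.Agent.Y142.ZI.monic_of_sys ρ B hsys h1).1, h2, h3⟩
      · rw [if_neg hd]
        obtain ⟨h1, h2, h3, -⟩ := hv 1 one_pos (by omega)
        exact ⟨h1, (Pool.Agent.Y142.ZI.monic_of_sys ρ B hsys h1).1, h2, h3⟩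
    · intro d hd0 hdN
      beta_reduce
      rw [if_pos ⟨hd0, hdN⟩]
      exact (hv d hd0 hdN).2.2.2
    · exact ⟨⟨hw1, (Pool.Agent.Y142.ZI.monic_of_sys ρ B hsys hw1).1, hw2, hw3⟩, hw4, hw5⟩
  tfae_have 3 → 2 := by
    intro h
    obtain ⟨b, hb⟩ : ∃ b : ℕ, ∀ ℓ : ℕ, b < ℓ → ∀ _ : Fact ℓ.Prime,
        Even (Padic.valuation (B ℓ).det) := by
      obtain ⟨s, v, w, -, -, hw, -⟩ := start_of h
      exact even_det hDISCE (by rw [hN]; exact even_two_mul n) ρ B hsys hw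
    have hfin : Pool.Agent.Y142.ZI.DensityZero {ℓ | ℓ.Prime ∧ ℓ ≤ b} := by
      refine hDENS2 _ 1 (fun ℓ hℓ => hℓ.1) fun M hM => ?_
      refine ⟨⊥, Set.univ, inferInstance, (isGalois_bot (F := ℚ) (E := QQ)).to_normal, ?_,
        fun _ _ _ => trivial,
        fun _ _ _ _ => trivial, fun g => ⟨1, fun x _ => rfl, trivial⟩, b, ?_⟩
      · rw [IntermediateField.finrank_bot]
      · rintro ℓ ⟨-, hℓ⟩ hbℓ
        omega
    have h := densityE hn hN hTAN hABS hROOTE hBADD hPOS hSUB hDISCE hMULTI hFROB hCHARE hKRQ hFDA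
      hFDB hTYPD2 hTYPD3 hNR hTAME hGEND hCLD hINT hDENS2 hS ρ B hsys (start_of h)
    refine (h.union hfin).mono ?_
    rintro ℓ ⟨hp, hno⟩
    by_cases hℓ : ℓ ≤ b
    · exact Or.inr ⟨hp.out, hℓ⟩
    · exact Or.inl ⟨hp, fun hfull => hno ⟨hb ℓ (by omega) hp,
        hOPEN ℓ _ (GK K) (ρ ℓ) (hsys ℓ).1 (B ℓ) (hsys ℓ).2.1 (hsys ℓ).2.2.1 (hsys ℓ).2.2.2.1
          hfull⟩⟩
  tfae_have 2 → 1 := by
    intro h
    have h1 : 0 < n - 1 := by omega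
    have h2 : 0 < n - 2 := by omega
    have hpos : 0 < 4 * ((n - 1) * (n - 2)) := by positivity
    obtain ⟨ℓ, h3, hp, hℓ⟩ := exists_not_mem h (4 * ((n - 1) * (n - 2)))
    haveI : Fact ℓ.Prime := ⟨hp⟩
    have hcon : Even (Padic.valuation (B ℓ).det) ∧ OpenImage ℓ (ρ ℓ) (B ℓ) := by
      by_contra hcon
      exact hℓ ⟨inferInstance, hcon⟩
    refine ⟨ℓ, inferInstance, fun hd => ?_, hcon⟩
    have := Nat.le_of_dvd hpos hd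
    omega
  tfae_finish

end

end Pool.Agent.Q282.OI
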