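import Pool.Agent.Y142.ZI.Fin
import Pool.Agent.Y337.ZO.Det
import Pool.Agent.Y337.ZO.Line
import Pool.Agent.Y96.ZO.Spec
import Pool.Agent.Y405.ZO.Val
import Pool.Agent.Y815.ZO.App
import Pool.Agent.Y458.ZO.Bad
import Pool.Agent.Y394.ZO.Dens
import Pool.Agent.Y884.ZI.Open
import Pool.Agent.Y379.ZI.BadRed
import Pool.Agent.Y949.ZI.Char
import Pool.Agent.Y155.ZI.Tens
import Pool.Agent.Q282.OI.FinS

/-!
# Project OI: the theorem for the orthogonal group in odd dimension, with the remaining tasks as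
hypotheses
-/

set_option autoImplicit false
set_option linter.style.haveILetI false

open Matrix Polynomial Filter Topology NumberField IsDedekindDomain
open Pool.Agent.Y142.ZO Pool.Agent.Y142.ZI

namespace Pool.Agent.Q282.OI

section
variable {K : Type} [Field K] [NumberField K] {m : ℕ} {S : Set (HeightOneSpectrum (𝓞 K))}
  {P : HeightOneSpectrum (𝓞 K) → ℚ[X]}

/-- the finite data -/
def WitO (S : Set (HeightOneSpectrum (𝓞 K))) (P : HeightOneSpectrum (𝓞 K) → ℚ[X])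
    (v₀ v₁ v₂ : HeightOneSpectrum (𝓞 K)) (Q₀ Q₁ Q₂ : ℚ[X]) (σ : GK ℚ) : Prop :=
  (v₀ ∉ S ∧ P v₀ = (X - 1) * Q₀ ∧ (∀ n : ℕ, 0 < n → IsCoprime Q₀ (X ^ n - 1)) ∧
    ∀ x y z : ℂ, aeval x Q₀ = 0 → aeval y Q₀ = 0 → aeval z Q₀ = 0 → x * y ≠ z) ∧
  (v₁ ∉ S ∧ P v₁ = (X - 1) * Q₁ ∧ (P v₁).Separable ∧
    (∀ (j : ℕ) (x y : QQ), 0 < j → aeval x (P v₁) = 0 → aeval y (P v₁) = 0 →
      x ^ j = y ^ j → x = y) ∧
    ∀ x y : QQ, aeval x Q₁ = 0 → aeval y Q₁ = 0 → ∃ k : ℕ, (σ ^ k) x = y) ∧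
  v₂ ∉ S ∧ P v₂ = (X - 1) * Q₂ ∧ (∀ n : ℕ, 0 < n → IsCoprime Q₂ (X ^ n - 1)) ∧
    ¬ IsSquare (Q₀.eval 1 * Q₀.eval (-1) * (Q₂.eval 1 * Q₂.eval (-1)))

theorem odd_main (hFORM1 : S_FORM1) (hFORM2 : S_FORM2) (hTYPC : S_TYPC)
    (hTYPS : S_TYPS) (hTYPT : S_TYPT) (hTYPU : S_TYPU) (hTYPX : S_TYPX)
    (hGEN : S_GEN) (hUNR : S_UNR) (hCAY : S_CAY) (hNT : S_NT) (hS : S.Finite)
    (ρ : ∀ (ℓ : ℕ) [Fact ℓ.Prime], GK K →* Matrix (Fin (2 * m + 3)) (Fin (2 * m + 3)) ℚ_[ℓ])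
    (B : ∀ (ℓ : ℕ) [Fact ℓ.Prime], Matrix (Fin (2 * m + 3)) (Fin (2 * m + 3)) ℚ_[ℓ])
    (hsys : ∀ (ℓ : ℕ) [Fact ℓ.Prime], Orthogonal K (2 * m + 3) ℓ (ρ ℓ) (B ℓ) S P) :
    List.TFAE [∃ ℓ : ℕ, ∃ _ : Fact ℓ.Prime, ¬ ℓ ∣ 2 * (m + 1) ∧ OpenImage ℓ (ρ ℓ) (B ℓ),
      Pool.Agent.Y142.ZI.DensityZero {ℓ | ∃ _ : Fact ℓ.Prime, ¬ OpenImage ℓ (ρ ℓ) (B ℓ)},
      ∃ (v₀ v₁ v₂ : HeightOneSpectrum (𝓞 K)) (Q₀ Q₁ Q₂ : ℚ[X]) (σ : GK ℚ),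
        WitO S P v₀ v₁ v₂ Q₀ Q₁ Q₂ σ] := by
  have hALG : S_ALG := alg_main
  have hISO : S_ISO := Pool.Agent.Y337.ZO.iso_t
  have hLINE : S_LINE := Pool.Agent.Y337.ZO.line_t
  have hTAN : S_TAN := Pool.Agent.Y708.ZO.t
  have hLOG : S_LOG := Pool.Agent.Y497.ZO.log
  have hEXP : S_EXP := Pool.Agent.Y497.ZO.exp
  have hPOW : S_POW := Pool.Agent.Y497.ZO.pow
  have hSPEC : S_SPEC := Pool.Agent.Y96.ZO.t
  have hAPP : S_APP := Pool.Agent.Y815.ZO.t Pool.Agent.Y337.ZO.det_t Pool.Agent.Y337.ZO.qz_t hLOG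
  have hFROB : S_FROB := Pool.Agent.Y405.ZO.t
  have hBAD : S_BAD := Pool.Agent.Y458.ZO.bad hISO hLINE
  have hVAL : S_VAL := Pool.Agent.Y405.ZO.t1
  have hVAL2 : S_VAL2 := Pool.Agent.Y405.ZO.t2
  have hDENS : S_DENS := Pool.Agent.Y394.ZO.t1
  have hINF : S_INF := Pool.Agent.Y394.ZO.t2
  have hINT : S_INT := Pool.Agent.Y484.ZI.t1
  have hRES : S_RES := Pool.Agent.Y484.ZI.t2
  have hIRR : S_IRR := Pool.Agent.Y971.ZI.t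
  have hPOS : S_POS := Pool.Agent.Y726.ZI.pos
  have hDENS2 : S_DENS2 := Pool.Agent.Y681.ZI.t Pool.Agent.Y726.ZI.t1
  have hMULTI : S_MULTI := Pool.Agent.Y537.ZI.t
  have hOPEN : S_OPEN := Pool.Agent.Y884.ZI.t
  have hBADRED : S_BADRED := Pool.Agent.Y379.ZI.t
  have hCHAR : S_CHAR := Pool.Agent.Y949.ZI.t
  have hN : Odd (2 * m + 3) := ⟨m + 1, by ring⟩
  tfae_have 1 → 3 := by
    rintro ⟨ℓ, hℓ, hdvd, ho⟩
    have hfull : FullLie ℓ (ρ ℓ) (B ℓ) :=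
      hCAY ℓ _ _ (ρ ℓ) (B ℓ) (hsys ℓ).2.1 (hsys ℓ).2.2.1 ho
    have hnt : ¬ TateSubquotient ℓ (ρ ℓ) := hNT ℓ _ (by omega) _ (ρ ℓ) (hsys ℓ).1 (B ℓ)
      (hsys ℓ).2.1 (hsys ℓ).2.2.1 hfull
    have hℓ2 : ℓ ≠ 2 := by
      rintro rfl
      exact hdvd ⟨m + 1, rfl⟩
    obtain ⟨v₁, Q₁, hv₁, -, σ, hσ⟩ := cyc_of_full hFROB hMULTI hCHAR hRES hUNR hFORM2 hTYPC hS ρ B
      hsys ℓ hdvd hfull
    obtain ⟨v₀, Q₀, hv₀, h0, hvℓ⟩ := good_of_full hFROB hMULTI hCHAR hFORM1 hTYPX hS ρ B hsys ℓ hℓ2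
      hfull
    obtain ⟨β₁, β₂, hβ₁, hβ₂, hval⟩ := values hALG hISO hLINE hTAN hLOG hEXP hPOW hSPEC hAPP hFROB
      hN hS hv₀ h0 ℓ hvℓ (ρ ℓ) (B ℓ) (hsys ℓ) hnt
    obtain ⟨s, hs, hsq⟩ := hVAL2 ℓ β₁ hβ₁
    obtain ⟨v₂, Q₂, hv₂, hvsq⟩ := hval s 0 (by simpa using hs)
    have hX : (X - 1 : ℚ[X]).Separable := by
      have := separable_X_sub_C (x := (1 : ℚ))
      rwa [C_1] at this
    have hsep1 : (P v₁).Separable := by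
      obtain ⟨h1, h2, h3, h4, h5, h6⟩ := hv₁
      rw [h2]
      refine hX.mul h4 ?_
      have key := Polynomial.isCoprime_iff_aeval_ne_zero_of_isAlgClosed (k := ℚ) ℂ (X - 1) Q₁
      refine key.2 fun a => ?_
      by_cases ha : aeval a (X - 1 : ℚ[X]) = 0
      · right
        rw [map_sub, aeval_X, map_one, sub_eq_zero] at ha
        subst ha
        have h7 : aeval (algebraMap ℚ ℂ 1) Q₁ = algebraMap ℚ ℂ (Q₁.eval 1) :=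
          aeval_algebraMap_apply_eq_algebraMap_eval _ _
        rw [map_one] at h7
        rw [h7]
        exact (_root_.map_ne_zero _).2 h5
      · exact Or.inl ha
    refine ⟨v₀, v₁, v₂, Q₀, Q₁, Q₂, σ, ⟨hv₀.1, hv₀.2.1, hv₀.2.2, h0⟩,
      ⟨hv₁.1, hv₁.2.1, hsep1, ?_, hσ⟩, hv₂.1, hv₂.2.1, hv₂.2.2, ?_⟩
    · intro j x y hj hx hy
      rw [hv₁.2.1] at hx hy
      exact hv₁.2.2.2.2.2 j x y hj hx hy
    · rintro ⟨a, ha⟩
      apply hsq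
      rw [ha, map_mul] at hvsq
      have ha0 : a ≠ 0 := by
        rintro rfl
        rw [mul_zero] at ha
        exact mul_ne_zero (eval_ne_zero_of_coprime hv₀.2.2) (eval_ne_zero_of_coprime hv₂.2.2) ha
      have ha0' : algebraMap ℚ ℚ_[ℓ] a ≠ 0 := (_root_.map_ne_zero _).2 ha0
      obtain ⟨b, hb⟩ := hvsq
      refine ⟨b / algebraMap ℚ ℚ_[ℓ] a, ?_⟩
      field_simp
      linear_combination hb
  tfae_have 3 → 2 := by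
    rintro ⟨v₀, v₁, v₂, Q₀, Q₁, Q₂, σ, ⟨a1, a2, a3, a4⟩, ⟨b1, b2, b3, b4, b5⟩, c1, c2, c3, c4⟩
    have hT : Pool.Agent.Y142.ZI.DensityZero (TateSet ρ) :=
      density_zero hALG hISO hLINE hTAN hLOG hEXP hPOW hSPEC hAPP hFROB hBAD hVAL hDENS
        hINF hN hS ⟨a1, a2, a3⟩ a4 ⟨c1, c2, c3⟩ c4 ρ B hsys
    obtain ⟨hmonP, hdegP⟩ := monic_of_sys ρ B hsys b1
    have hX : (X - 1 : ℚ[X]).Monic := by
      have := monic_X_sub_C (1 : ℚ)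
      rwa [C_1] at this
    have hXd : (X - 1 : ℚ[X]).natDegree = 1 := by
      have := natDegree_X_sub_C (1 : ℚ)
      rwa [C_1] at this
    have hmon : Q₁.Monic := by
      rw [b2] at hmonP
      exact hX.of_mul_monic_left hmonP
    have hdeg : 0 < Q₁.natDegree := by
      rw [b2, hX.natDegree_mul hmon, hXd] at hdegP
      omega
    have hb3 := b3
    rw [b2] at hb3
    have hnice : NicePlace S P v₁ Q₁ := by
      refine ⟨b1, b2, hmon, hb3.of_mul_right, ?_, ?_⟩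
      · intro h
        obtain ⟨u, w, huw⟩ := hb3.isCoprime
        have := congrArg (eval (1 : ℚ)) huw
        simp [h] at this
      · intro j x y hj hx hy
        rw [← b2] at hx hy
        exact b4 j x y hj hx hy
    exact density_of_cyc hLINE hTAN hEXP hSPEC hFROB hBADRED hPOS hIRR hOPEN hMULTI hCHAR hGEN hRES
      hUNR hINT hDENS2 hFORM1 hFORM2 hTYPC hTYPS hTYPT hTYPU hS ⟨a1, a2, a3⟩ a4 ρ B hsys hT hnice
      hdeg ⟨σ, b5⟩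
  tfae_have 2 → 1 := by
    intro h
    obtain ⟨ℓ, h2, hp, hℓ⟩ := exists_not_mem h (2 * (m + 1))
    haveI : Fact ℓ.Prime := ⟨hp⟩
    refine ⟨ℓ, inferInstance, fun hd => ?_, ?_⟩
    · have := Nat.le_of_dvd (by omega) hd
      omega
    · by_contra hcon
      exact hℓ ⟨inferInstance, hcon⟩
  tfae_finish

end

end Pool.Agent.Q282.OI
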