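import Pool.Agent.Y142.ZD.Stm

set_option autoImplicit false

/-!
Project OI (helper282): two more statements on quadratic forms over `ℚ_ℓ`, `ℓ` odd.
-/

open Matrix Polynomial

namespace Pool.Agent.Q282.OI

/-- ISO3: a ternary form with unit coefficients is isotropic. -/
def S_ISO3 : Prop := ∀ (ℓ : ℕ) [Fact ℓ.Prime], ℓ ≠ 2 → ∀ u : Fin 3 → ℚ_[ℓ], (∀ i, ‖u i‖ = 1) →
  ∃ x : Fin 3 → ℚ_[ℓ], x ≠ 0 ∧ ∑ i, u i * x i ^ 2 = 0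

/-- HM: `m` hyperbolic planes split off from a form of dimension `2 m + r`, `r ≥ 3`. -/
def S_HM : Prop := ∀ (ℓ : ℕ) [Fact ℓ.Prime], ℓ ≠ 2 → ∀ (m r N : ℕ), 3 ≤ r → N = 2 * m + r →
  ∀ B : Matrix (Fin N) (Fin N) ℚ_[ℓ], Bᵀ = B → B.det ≠ 0 →
  ∃ (C : Matrix (Fin N) ((Fin m ⊕ Fin m) ⊕ Fin r) ℚ_[ℓ])
    (D : Matrix ((Fin m ⊕ Fin m) ⊕ Fin r) (Fin N) ℚ_[ℓ]) (d : Fin r → ℚ_[ℓ]),
    C * D = 1 ∧ D * C = 1 ∧ (∀ i, d i ≠ 0) ∧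
    Cᵀ * B * C = fromBlocks (fromBlocks 0 1 1 0) 0 0 (diagonal d)

end Pool.Agent.Q282.OI
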