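import Pool.Agent.Q282.OI.FinE
import Pool.Agent.Q282.OI.Stm
import Pool.Agent.Q190.OI.GEND
import Pool.Agent.Q190.OI.CLD
import Pool.Agent.Q164.OI.TAME
import Pool.Agent.Q96.OI.UNR
import Pool.Agent.Q96.OI.NR
import Pool.Agent.Q288.OI.DISCE
import Pool.Agent.Q150.OI.ROOTD
import Pool.Agent.Q150.OI.CHARE
import Pool.Agent.Q19.OI.ROOTE
import Pool.Agent.Q153.OI.CAY
import Pool.Agent.Q278.OI.ISO3
import Pool.Agent.Q40.OI.HM
import Pool.Agent.Q235.OI.WE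
import Pool.Agent.Q265.OI.FDA
import Pool.Agent.Q238.OI.FDB
import Pool.Agent.Q211.OI.TYPD2
import Pool.Agent.Q139.OI.TYPD3
import Pool.Agent.Y547.ZI.Nice

/-!
# Project OI: the theorem for the orthogonal group in even dimension

The tasks were proved by helper19, helper40, helper96, helper139, helper150, helper153, helper164,
helper190, helper211, helper235, helper238, helper265, helper278 and helper288.
-/

set_option autoImplicit false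

open Matrix Polynomial Filter Topology NumberField IsDedekindDomain
open Pool.Agent.Y142.ZO Pool.Agent.Y142.ZI Pool.Agent.Y142.ZD

namespace Pool.Agent.Q282.OI

theorem hHM : S_HM := Pool.Agent.Q40.OI.HM.t Pool.Agent.Q278.OI.ISO3.t

theorem hWE : S_WE := Pool.Agent.Q235.OI.WE.t hHM Pool.Agent.Q278.OI.ISO3.t

theorem hNR : S_NR := Pool.Agent.Q96.OI.NR.t Pool.Agent.Q96.OI.UNR.t

theorem even {K : Type} [Field K] [NumberField K] {N : ℕ} {S : Set (HeightOneSpectrum (𝓞 K))}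
    {P : HeightOneSpectrum (𝓞 K) → ℚ[X]} {n : ℕ} (hn : 4 ≤ n) (hN : N = 2 * n) (hS : S.Finite)
    (ρ : ∀ (ℓ : ℕ) [Fact ℓ.Prime], GK K →* Matrix (Fin N) (Fin N) ℚ_[ℓ])
    (B : ∀ (ℓ : ℕ) [Fact ℓ.Prime], Matrix (Fin N) (Fin N) ℚ_[ℓ])
    (hsys : ∀ (ℓ : ℕ) [Fact ℓ.Prime], Orthogonal K N ℓ (ρ ℓ) (B ℓ) S P) :
    List.TFAE [∃ ℓ : ℕ, ∃ _ : Fact ℓ.Prime, ¬ ℓ ∣ 4 * ((n - 1) * (n - 2)) ∧
        Even (Padic.valuation (B ℓ).det) ∧ OpenImage ℓ (ρ ℓ) (B ℓ),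
      Pool.Agent.Y142.ZI.DensityZero {ℓ | ∃ _ : Fact ℓ.Prime,
        ¬ (Even (Padic.valuation (B ℓ).det) ∧ OpenImage ℓ (ρ ℓ) (B ℓ))},
      ∃ (v : ℕ → HeightOneSpectrum (𝓞 K)) (w : HeightOneSpectrum (𝓞 K)) (σ : GK ℚ),
        WitE N S P v w σ] :=
  even_main (Pool.Agent.Q19.OI.ROOTE.t Pool.Agent.Q150.OI.ROOTD.t) (Pool.Agent.Q265.OI.FDA.t hWE)
    (Pool.Agent.Q238.OI.FDB.t hWE) (Pool.Agent.Q211.OI.TYPD2.t hNR Pool.Agent.Y547.ZI.t2)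
    Pool.Agent.Q139.OI.TYPD3.t hNR (Pool.Agent.Q164.OI.TAME.t hNR) Pool.Agent.Q190.OI.GEND.t
    Pool.Agent.Q190.OI.CLD.t Pool.Agent.Q150.OI.CHARE.t Pool.Agent.Q288.OI.DISCE.t
    Pool.Agent.Q153.OI.CAY.t hn hN hS ρ B hsys

end Pool.Agent.Q282.OI
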