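import Pool.Agent.Q282.OI.FinS
import Pool.Agent.Y405.ZI.TypU
import Pool.Agent.Y547.ZI.Nice
import Pool.Agent.Q182.OI.GEN
import Pool.Agent.Q96.OI.UNR
import Pool.Agent.Q96.OI.CLQ
import Pool.Agent.Q230.OI.CLU
import Pool.Agent.Q208.OI.CYC
import Pool.Agent.Q81.OI.TYPC
import Pool.Agent.Q129.OI.TYPS
import Pool.Agent.Q247.OI.TYPT
import Pool.Agent.Q166.OI.TYPG
import Pool.Agent.Q13.OI.TYPCU
import Pool.Agent.Q238.OI.TWIST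
import Pool.Agent.Q265.OI.SFORM
import Pool.Agent.Q65.OI.BADIRR
import Pool.Agent.Y614.ZD.Badd
import Pool.Agent.Y255.SS.LF

/-!
# Project OI: the symplectic theorem

The tasks were proved by helper13, helper65, helper81, helper96, helper129, helper166, helper182,
helper208, helper230, helper238, helper247 and helper265.
-/

set_option autoImplicit false

open Matrix Polynomial Filter Topology NumberField IsDedekindDomain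
open Pool.Agent.Y142.ZO Pool.Agent.Y142.ZI Pool.Agent.Y142.ZS

namespace Pool.Agent.Q282.OI

theorem hCLU : S_CLU := Pool.Agent.Q230.OI.CLU.t

theorem hCLQ : S_CLQ := Pool.Agent.Q96.OI.CLQ.t hCLU

theorem hTYPC : S_TYPC :=
  Pool.Agent.Q81.OI.TYPC.t hCLU (Pool.Agent.Q208.OI.CYC.t hCLU) Pool.Agent.Y547.ZI.t1

theorem symp {K : Type} [Field K] [NumberField K] {N : ℕ} {S : Set (HeightOneSpectrum (𝓞 K))}
    {P : HeightOneSpectrum (𝓞 K) → ℚ[X]} {q : HeightOneSpectrum (𝓞 K) → ℚ} (hN : 0 < N)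
    (hS : S.Finite)
    (ρ : ∀ (ℓ : ℕ) [Fact ℓ.Prime], GK K →* Matrix (Fin N) (Fin N) ℚ_[ℓ])
    (J : ∀ (ℓ : ℕ) [Fact ℓ.Prime], Matrix (Fin N) (Fin N) ℚ_[ℓ])
    (hsys : ∀ (ℓ : ℕ) [Fact ℓ.Prime], SpSys K N ℓ (ρ ℓ) (J ℓ) S P q) :
    List.TFAE [∃ ℓ : ℕ, ∃ _ : Fact ℓ.Prime, ℓ ≠ 2 ∧ OpenSp ℓ (ρ ℓ) (J ℓ),
      Pool.Agent.Y142.ZI.DensityZero {ℓ | ∃ _ : Fact ℓ.Prime, ¬ OpenSp ℓ (ρ ℓ) (J ℓ)},
      ∃ (v w : HeightOneSpectrum (𝓞 K)) (σ : GK ℚ), WitS S P q v w σ] :=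
  symp_main (Pool.Agent.Q65.OI.BADIRR.t Pool.Agent.Y614.ZD.t) Pool.Agent.Q265.OI.SFORM.t
    Pool.Agent.Q238.OI.TWIST.t hTYPC (Pool.Agent.Q129.OI.TYPS.t hCLQ)
    (Pool.Agent.Q247.OI.TYPT.t hCLQ Pool.Agent.Y547.ZI.t2)
    (Pool.Agent.Y405.ZI.t hCLQ Pool.Agent.Y547.ZI.t2) Pool.Agent.Q166.OI.TYPG.t
    (Pool.Agent.Q13.OI.TYPCU.t Pool.Agent.Y547.ZI.t1 Pool.Agent.Y255.SS.t) Pool.Agent.Q182.OI.GEN.t Pool.Agent.Q96.OI.UNR.t hN hS ρ J hsys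

end Pool.Agent.Q282.OI
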