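import Pool.Agent.Q282.OI.Stm

set_option autoImplicit false

open Matrix Polynomial Pool.Agent.Y142.ZI

namespace Pool.Agent.Q282.OI

theorem wt (hHM : S_HM) (hTERN : S_TERN) : S_WT := by
  intro ℓ _ h2 m B hB hdet
  obtain ⟨C, D, d, hCD, hDC, hd, hC⟩ := hHM ℓ h2 m 3 (2 * m + 3) le_rfl rfl B hB hdet
  obtain ⟨C', D', d', hCD', hDC', hd', hodd, hval⟩ := hTERN ℓ h2 d hd
  let E : Matrix ((Fin m ⊕ Fin m) ⊕ Fin 3) ((Fin m ⊕ Fin m) ⊕ Fin 3) ℚ_[ℓ] := fromBlocks 1 0 0 C'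
  let E' : Matrix ((Fin m ⊕ Fin m) ⊕ Fin 3) ((Fin m ⊕ Fin m) ⊕ Fin 3) ℚ_[ℓ] := fromBlocks 1 0 0 D'
  have h1 : E * E' = 1 := by
    simp only [E, E']
    rw [fromBlocks_multiply]
    simp only [Matrix.mul_one, Matrix.mul_zero, Matrix.zero_mul, add_zero, zero_add, hCD']
    exact fromBlocks_one
  have h1' : E' * E = 1 := by
    simp only [E, E']
    rw [fromBlocks_multiply]
    simp only [Matrix.mul_one, Matrix.mul_zero, Matrix.zero_mul, add_zero, zero_add, hDC']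
    exact fromBlocks_one
  refine ⟨C * E, E' * D, d', ?_, ?_, hd', ?_, ?_⟩
  · rw [Matrix.mul_assoc, ← Matrix.mul_assoc E, h1, Matrix.one_mul, hCD]
  · rw [Matrix.mul_assoc, ← Matrix.mul_assoc D, hDC, Matrix.one_mul, h1']
  · exact hval
  · have h3 : (C * E)ᵀ * B * (C * E) = Eᵀ * (Cᵀ * B * C) * E := by
      rw [transpose_mul]
      simp only [Matrix.mul_assoc]
    rw [h3, hC]
    simp only [E]
    rw [fromBlocks_transpose, fromBlocks_multiply, fromBlocks_multiply]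
    simp only [transpose_one, transpose_zero, Matrix.one_mul, Matrix.mul_one, Matrix.mul_zero,
      Matrix.zero_mul, add_zero, zero_add]
    rw [hodd]

end Pool.Agent.Q282.OI
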