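import Pool.Agent.Q282.OI.FinO
import Pool.Agent.Q282.OI.MainE
import Pool.Agent.Q282.OI.MainS
import Pool.Agent.Q282.OI.WT
import Pool.Agent.Q278.OI.TERN
import Pool.Agent.Q91.OI.FORM1
import Pool.Agent.Q217.OI.FORM2
import Pool.Agent.Q295.OI.NT
import Pool.Agent.Q119.OI.Typx

/-!
# Project OI: the theorem for the orthogonal group in odd dimension

The tasks were proved by helper40, helper81, helper91, helper96, helper119, helper129, helper153,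
helper182, helper208, helper217, helper230, helper247, helper278 and helper295.
-/

set_option autoImplicit false

open Matrix Polynomial Filter Topology NumberField IsDedekindDomain
open Pool.Agent.Y142.ZO Pool.Agent.Y142.ZI

namespace Pool.Agent.Q282.OI

theorem hWT : S_WT := wt hHM (Pool.Agent.Q278.OI.TERN.t Pool.Agent.Q278.OI.ISO3.t)

theorem odd {K : Type} [Field K] [NumberField K] {m : ℕ} {S : Set (HeightOneSpectrum (𝓞 K))}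
    {P : HeightOneSpectrum (𝓞 K) → ℚ[X]} (hS : S.Finite)
    (ρ : ∀ (ℓ : ℕ) [Fact ℓ.Prime], GK K →* Matrix (Fin (2 * m + 3)) (Fin (2 * m + 3)) ℚ_[ℓ])
    (B : ∀ (ℓ : ℕ) [Fact ℓ.Prime], Matrix (Fin (2 * m + 3)) (Fin (2 * m + 3)) ℚ_[ℓ])
    (hsys : ∀ (ℓ : ℕ) [Fact ℓ.Prime], Orthogonal K (2 * m + 3) ℓ (ρ ℓ) (B ℓ) S P) :
    List.TFAE [∃ ℓ : ℕ, ∃ _ : Fact ℓ.Prime, ¬ ℓ ∣ 2 * (m + 1) ∧ OpenImage ℓ (ρ ℓ) (B ℓ),
      Pool.Agent.Y142.ZI.DensityZero {ℓ | ∃ _ : Fact ℓ.Prime, ¬ OpenImage ℓ (ρ ℓ) (B ℓ)},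
      ∃ (v₀ v₁ v₂ : HeightOneSpectrum (𝓞 K)) (Q₀ Q₁ Q₂ : ℚ[X]) (σ : GK ℚ),
        WitO S P v₀ v₁ v₂ Q₀ Q₁ Q₂ σ] :=
  odd_main (Pool.Agent.Q91.OI.FORM1.t hWT) (Pool.Agent.Q217.OI.FORM2.t hWT) hTYPC
    (Pool.Agent.Q129.OI.TYPS.t hCLQ) (Pool.Agent.Q247.OI.TYPT.t hCLQ Pool.Agent.Y547.ZI.t2)
    (Pool.Agent.Y405.ZI.t hCLQ Pool.Agent.Y547.ZI.t2) Pool.Agent.Q119.OI.TYPX.t
    Pool.Agent.Q182.OI.GEN.t Pool.Agent.Q96.OI.UNR.t Pool.Agent.Q153.OI.CAY.t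
    Pool.Agent.Q295.OI.NT.t hS ρ B hsys

end Pool.Agent.Q282.OI
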